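import Mathlib
import Pool.Agent.W593.IR.Stm3
import Pool.Agent.W287.IR.St2

/-!
# Mixing: from two-point variables to finitely many equally likely values
-/

set_option autoImplicit false

namespace Pool.Agent.W656.IR

open Finset Pool.Agent.W593.IR Pool.Agent.W890.SF

theorem sum_init_iter {P : Type} [Fintype P] (π : P → ℝ) (h : ∑ p, π p = 1) (r k : ℕ)
    (hrk : r ≤ k) (F : (Fin r → P) → ℝ) :
    ∑ p : Fin r → P, (∏ i, π (p i)) * F p =
      ∑ p : Fin k → P, (∏ i, π (p i)) * F (fun i => p (Fin.castLE hrk i)) := by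
  obtain ⟨m, rfl⟩ := Nat.exists_eq_add_of_le hrk
  induction m with
  | zero => rfl
  | succ m ih =>
    rw [ih (Nat.le_add_right r m), Pool.Agent.W287.IR.sum_init π h (r + m)]
    rfl

/-- extension of a finite sequence -/
noncomputable def ext {k : ℕ} (c : Fin k → ℝ) (d : ℝ) (n : ℕ) : ℝ := if h : n < k then c ⟨n, h⟩ else d

theorem ext_val {k : ℕ} (c : Fin k → ℝ) (d : ℝ) (i : Fin k) : ext c d (i : ℕ) = c i := by
  simp [ext]

theorem ext_le {k r : ℕ} (hr : r ≤ k) (c : Fin k → ℝ) (d : ℝ) (i : Fin r) :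
    ext c d (i : ℕ) = c (Fin.castLE hr i) := by
  have hi : (i : ℕ) < k := lt_of_lt_of_le i.2 hr
  simp only [ext, hi, dif_pos]
  rfl

theorem vb : S_VB := by
  classical
  intro h1 h2 k ρ hk hρ0 hρ1 hT V _ _ y hy hsum
  have hk0 : (0 : ℝ) < k := by exact_mod_cast hk
  have hN : (0 : ℝ) < (Fintype.card V : ℝ) := by exact_mod_cast Fintype.card_pos
  have hcoef : ∀ r, 0 ≤ (k.choose r : ℝ) * (1 - ρ) ^ (k - r) * ρ ^ r := by
    intro r
    have : (0 : ℝ) ≤ 1 - ρ := by linarith
    positivity
  by_cases hc : ∀ v, y v = 1 / (k : ℝ)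
  · have hNL : ∀ r ∈ range k, (k.choose r : ℝ) * (1 - ρ) ^ (k - r) * ρ ^ r *
        ((NL y r : ℝ) / (Fintype.card V : ℝ) ^ r) = (k.choose r : ℝ) * (1 - ρ) ^ (k - r) * ρ ^ r := by
      intro r hr
      have he : {f : Fin r → V | ∑ i, y (f i) < 1} = Set.univ := by
        ext f
        simp only [Set.mem_ofPred_eq, Set.mem_univ, iff_true]
        rw [Finset.sum_congr rfl (fun i _ => hc (f i)), Finset.sum_const, Finset.card_univ,
          Fintype.card_fin, nsmul_eq_mul, mul_one_div, div_lt_one hk0]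
        exact_mod_cast Finset.mem_range.1 hr
      have h3 : NL y r = Fintype.card V ^ r := by
        unfold NL
        rw [he, Set.ncard_univ, Nat.card_eq_fintype_card, Fintype.card_fun, Fintype.card_fin]
      rw [h3, Nat.cast_pow, div_self (pow_ne_zero _ hN.ne'), mul_one]
    have hbin : ∑ r ∈ range (k + 1), (k.choose r : ℝ) * (1 - ρ) ^ (k - r) * ρ ^ r = 1 := by
      have h3 := add_pow ρ (1 - ρ) k
      have h4 : ρ + (1 - ρ) = 1 := by ring
      rw [h4, one_pow] at h3
      exact (h3.trans (Finset.sum_congr rfl fun r _ => by ring)).symm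
    have hbin2 : ∑ r ∈ range k, (k.choose r : ℝ) * (1 - ρ) ^ (k - r) * ρ ^ r = 1 - ρ ^ k := by
      rw [Finset.sum_range_succ] at hbin
      simp only [Nat.choose_self, Nat.cast_one, Nat.sub_self, pow_zero, one_mul] at hbin
      linarith
    refine le_trans (min_le_left _ _) ?_
    rw [Finset.sum_range_succ, Finset.sum_congr rfl hNL, hbin2]
    have h5 : 0 ≤ (k.choose k : ℝ) * (1 - ρ) ^ (k - k) * ρ ^ k *
        ((NL y k : ℝ) / (Fintype.card V : ℝ) ^ k) := mul_nonneg (hcoef k) (by positivity)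
    linarith
  · push Not at hc
    have hm : ∑ v, y v = 1 / (k : ℝ) * (Fintype.card V : ℝ) := by
      rw [← hsum]
      field_simp
    obtain ⟨P, iP, π, a, b, q, hπ, hπ1, hab, hφ, -⟩ := h2 V y (1 / (k : ℝ)) hy hm hc
    have hNL : ∀ r ∈ range (k + 1), (k.choose r : ℝ) * (1 - ρ) ^ (k - r) * ρ ^ r *
        ((NL y r : ℝ) / (Fintype.card V : ℝ) ^ r) = ∑ p : Fin k → P, (∏ i, π (p i)) *
          ((k.choose r : ℝ) * (1 - ρ) ^ (k - r) * ρ ^ r *
            Us (ext (fun i => a (p i)) 0) (ext (fun i => b (p i)) 1) (ext (fun i => q (p i)) 0) r) := by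
      intro r hr
      have hrk : r ≤ k := Nat.lt_succ_iff.1 (Finset.mem_range.1 hr)
      have e : (NL y r : ℝ) = (Fintype.card V : ℝ) ^ r * ∑ p : Fin r → P, (∏ i, π (p i)) *
          PP (fun i => a (p i)) (fun i => b (p i)) (fun i => q (p i)) := h1 V P y π a b q hφ r
      have hp := pow_ne_zero r hN.ne'
      rw [e, mul_div_cancel_left₀ _ hp, sum_init_iter π hπ1 r k hrk
        (fun p => PP (fun i => a (p i)) (fun i => b (p i)) (fun i => q (p i))), Finset.mul_sum]
      refine Finset.sum_congr rfl fun p _ => ?_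
      have e2 : Us (ext (fun i => a (p i)) 0) (ext (fun i => b (p i)) 1)
          (ext (fun i => q (p i)) 0) r = PP (fun i => a (p (Fin.castLE hrk i)))
          (fun i => b (p (Fin.castLE hrk i))) (fun i => q (p (Fin.castLE hrk i))) := by
        unfold Us
        congr 1
        · funext i; exact ext_le hrk _ _ i
        · funext i; exact ext_le hrk _ _ i
        · funext i; exact ext_le hrk _ _ i
      rw [e2]
      ring
    rw [Finset.sum_congr rfl hNL, Finset.sum_comm]
    have h7 := Pool.Agent.W287.IR.sum_prod_pi π hπ1 k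
    calc min (1 - ρ ^ k) ((1 - ρ / k) ^ k)
        = ∑ p : Fin k → P, (∏ i, π (p i)) * min (1 - ρ ^ k) ((1 - ρ / k) ^ k) := by
          rw [← Finset.sum_mul, h7, one_mul]
      _ ≤ _ := by
          refine Finset.sum_le_sum fun p _ => ?_
          rw [← Finset.mul_sum]
          refine mul_le_mul_of_nonneg_left ?_ (Finset.prod_nonneg fun i _ => (hπ (p i)).le)
          refine hT _ _ _ ⟨?_, ?_, ?_, ?_, ?_⟩
          · intro i; rw [ext_val]; exact (hab (p i)).1
          · intro i; rw [ext_val]; exact (hab (p i)).2.1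
          · intro i; rw [ext_val]; exact (hab (p i)).2.2.1
          · intro i; rw [ext_val]; exact (hab (p i)).2.2.2.1
          · intro i; rw [ext_val, ext_val, ext_val]; exact (hab (p i)).2.2.2.2

end Pool.Agent.W656.IR
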